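import Mathlib

/-!
# MP_b803e5_al: automatic, geodesic and shortlex automatic structures

Words over a finite alphabet with a map to a group, padded pairs of words, automatic structures,
shortlex automatic groups, Helly graphs.
-/

namespace Pool.Agent.MP_b803e5_al

variable {A G : Type*} [Group G]

/-- The element of `G` represented by the word `w` over `A`, for the map `f : A → G`. -/
def ev (f : A → G) (w : List A) : G := (w.map f).prod

/-- The pair of words `(v, w)` read synchronously, the shorter one padded at the end by `none`. -/
def pad (v w : List A) : List (Option A × Option A) := List.zipWithAll Prod.mk v w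

/-- `L` is an automatic structure for `G` over `A`: it is regular, it maps onto `G`, and the padded
sets `{(v,w) : v, w in L, v a = w in G}` are regular for `a` in `A` and for the empty word. -/
structure IsAutomaticStructure (f : A → G) (L : Language A) : Prop where
  regular : L.IsRegular
  onto : ∀ g : G, ∃ w ∈ L, ev f w = g
  mult : ∀ a : A, Language.IsRegular
    ({x | ∃ v ∈ L, ∃ w ∈ L, ev f v * f a = ev f w ∧ x = pad v w} : Set (List (Option A × Option A)))
  equal : Language.IsRegular
    ({x | ∃ v ∈ L, ∃ w ∈ L, ev f v = ev f w ∧ x = pad v w} : Set (List (Option A × Option A)))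

/-- The word `w` is the least word, in the shortlex order, of all words representing the same
element of `G`. -/
def IsShortlexLeast [LinearOrder A] (f : A → G) (w : List A) : Prop :=
  ∀ w' : List A, ev f w' = ev f w → ¬ List.Shortlex (fun a b : A => a < b) w' w

/-- `G` is shortlex automatic over some finite monoid generating set, for some ordering of it:
the generating set is `f 0, f 1, ..., f (n-1)`, in this order. -/
def ShortlexAutomatic (G : Type*) [Group G] : Prop :=
  ∃ (n : ℕ) (f : Fin n → G), (∀ g : G, ∃ w : List (Fin n), ev f w = g) ∧
    IsAutomaticStructure f ({w | IsShortlexLeast f w} : Set (List (Fin n)))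

/-- A Helly graph: a connected graph in which every (finite) family of pairwise intersecting balls
has a common vertex. -/
def IsHelly {V : Type*} (X : SimpleGraph V) : Prop :=
  X.Connected ∧ ∀ s : Finset (V × ℕ),
    (∀ b ∈ s, ∀ c ∈ s, ∃ z, X.dist b.1 z ≤ b.2 ∧ X.dist c.1 z ≤ c.2) →
      ∃ z, ∀ b ∈ s, X.dist b.1 z ≤ b.2

end Pool.Agent.MP_b803e5_al
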