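import Mathlib
import Pool.Agent.Lib.MP_b803e5_al.Defs

/-!
# MP_b803e5_al: the fellow traveller property implies shortlex automatic

If shortlex least words of neighbouring elements fellow travel, then the shortlex language is
regular and is an automatic structure.
-/

set_option linter.unusedSectionVars false

namespace Pool.Agent.MP_b803e5_al

section words

variable {A G : Type*} [Group G] (f : A → G)

@[simp] lemma ev_nil : ev f [] = 1 := rfl

@[simp] lemma ev_cons (a : A) (w : List A) : ev f (a :: w) = f a * ev f w := by
  simp [ev]

@[simp] lemma ev_append (v w : List A) : ev f (v ++ w) = ev f v * ev f w := by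
  simp [ev]

lemma pad_nil_left (w : List A) : pad [] w = w.map (fun b => (none, some b)) := by
  unfold pad
  cases w <;> simp [List.zipWithAll]

lemma pad_nil_right (v : List A) : pad v [] = v.map (fun a => (some a, none)) := by
  unfold pad
  cases v <;> simp [List.zipWithAll]

@[simp] lemma pad_nil_nil : pad ([] : List A) [] = [] := by
  rw [pad_nil_left]
  rfl

@[simp] lemma pad_cons_cons (a b : A) (v w : List A) :
    pad (a :: v) (b :: w) = (some a, some b) :: pad v w := by
  unfold pad
  simp [List.zipWithAll]

lemma length_pad (v w : List A) : (pad v w).length = max v.length w.length := by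
  induction v generalizing w with
  | nil => rw [pad_nil_left]; simp
  | cons a v ih =>
    cases w with
    | nil => rw [pad_nil_right]; simp
    | cons b w =>
      rw [pad_cons_cons]
      simp [ih]

lemma pad_take (v w : List A) (t : ℕ) : (pad v w).take t = pad (v.take t) (w.take t) := by
  induction v generalizing w t with
  | nil => simp [pad_nil_left]
  | cons a v ih =>
    cases w with
    | nil => simp [pad_nil_right]
    | cons b w =>
      cases t with
      | zero => simp
      | succ t => simp [ih]

lemma pad_drop (v w : List A) (t : ℕ) : (pad v w).drop t = pad (v.drop t) (w.drop t) := by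
  induction v generalizing w t with
  | nil => simp [pad_nil_left]
  | cons a v ih =>
    cases w with
    | nil => simp [pad_nil_right]
    | cons b w =>
      cases t with
      | zero => simp
      | succ t => simp [ih]

lemma pad_append (v1 v2 w1 w2 : List A) (h1 : v1.length < w1.length → v2 = [])
    (h2 : w1.length < v1.length → w2 = []) :
    pad (v1 ++ v2) (w1 ++ w2) = pad v1 w1 ++ pad v2 w2 := by
  induction v1 generalizing w1 with
  | nil =>
    cases w1 with
    | nil => simp
    | cons b w1 =>
      have h := h1 (by simp)
      subst h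
      simp [pad_nil_left]
  | cons a v1 ih =>
    cases w1 with
    | nil =>
      have h := h2 (by simp)
      subst h
      simp [pad_nil_right]
    | cons b w1 =>
      have h := ih w1 (fun h => h1 (by simpa using h)) (fun h => h2 (by simpa using h))
      simp [h]

end words

section regular

/-- A language is regular as soon as left quotients are determined by finitely many states. -/
lemma reg_of_state {α σ : Type*} (L : Language α) (s : List α → σ) (hs : (Set.range s).Finite)
    (h : ∀ x y, s x = s y → ∀ z, x ++ z ∈ L → y ++ z ∈ L) : L.IsRegular := by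
  classical
  refine Language.IsRegular.of_finite_range_leftQuotient ?_
  refine (hs.image (fun p => L.leftQuotient
    (if h : ∃ x, s x = p then h.choose else []))).subset ?_
  rintro _ ⟨x, rfl⟩
  refine ⟨s x, ⟨x, rfl⟩, ?_⟩
  have h1 : ∃ y, s y = s x := ⟨x, rfl⟩
  change L.leftQuotient (if h : ∃ y, s y = s x then h.choose else []) = L.leftQuotient x
  rw [dif_pos h1]
  have h2 := h1.choose_spec
  ext z
  exact ⟨fun hz => h _ _ h2 z hz, fun hz => h _ _ h2.symm z hz⟩

end regular

section least

variable {A G : Type*} [Group G] [LinearOrder A] (f : A → G)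

lemma lex_append {s t : List A} (u v : List A) (hl : s.length = t.length)
    (h : List.Lex (fun a b : A => a < b) s t) :
    List.Lex (fun a b : A => a < b) (s ++ u) (t ++ v) := by
  induction h with
  | nil => simp at hl
  | cons h ih => exact List.Lex.cons (ih (by simpa using hl))
  | rel h => exact List.Lex.rel h

lemma shortlex_append {s t : List A} (u : List A)
    (h : List.Shortlex (fun a b : A => a < b) s t) :
    List.Shortlex (fun a b : A => a < b) (s ++ u) (t ++ u) := by
  rw [List.shortlex_def] at h ⊢
  rcases h with h | ⟨h1, h2⟩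
  · left
    simp only [List.length_append]
    omega
  · right
    refine ⟨by simp only [List.length_append]; omega, lex_append u u h1 h2⟩

lemma IsShortlexLeast.left {u v : List A} (h : IsShortlexLeast f (u ++ v)) :
    IsShortlexLeast f u := by
  intro w hw hlt
  refine h (w ++ v) (by simp [hw]) (shortlex_append v hlt)

lemma IsShortlexLeast.right {u v : List A} (h : IsShortlexLeast f (u ++ v)) :
    IsShortlexLeast f v := by
  intro w hw hlt
  exact h (u ++ w) (by simp [hw]) (hlt.append_left u)

lemma exists_least [Finite A] (hgen : ∀ g : G, ∃ w : List A, ev f w = g) (g : G) :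
    ∃ w, IsShortlexLeast f w ∧ ev f w = g := by
  have hwf : WellFounded (List.Shortlex (fun a b : A => a < b)) :=
    List.Shortlex.wf (Finite.wellFounded_of_trans_of_irrefl _)
  obtain ⟨w, hw, hmin⟩ := hwf.has_min {w | ev f w = g} (hgen g)
  exact ⟨w, fun w' hw' => hmin w' (hw'.trans hw), hw⟩

lemma least_unique {v w : List A} (hv : IsShortlexLeast f v) (hw : IsShortlexLeast f w)
    (h : ev f v = ev f w) : v = w := by
  by_contra hne
  rcases trichotomous_of (List.Shortlex (fun a b : A => a < b)) v w with h1 | h1 | h1
  · exact hw v h h1
  · exact hne h1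
  · exact hv w h.symm h1

lemma IsShortlexLeast.length_le {v w : List A} (hv : IsShortlexLeast f v)
    (h : ev f w = ev f v) : v.length ≤ w.length := by
  by_contra hlt
  rw [not_le] at hlt
  exact hv w h (List.Shortlex.of_length_lt hlt)

end least

section automaton

variable {A G : Type*} [Group G] [LinearOrder A] (f : A → G) (F : Set G)

/-- The words `x` and `y` fellow travel with differences in `F`. -/
def FT (x y : List A) : Prop := ∀ t : ℕ, (ev f (x.take t))⁻¹ * ev f (y.take t) ∈ F

/-- The state of the word `x`: differences to the words `y` which fellow travel with `x`, with the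
type of the pair (`0`: same length and smaller, `1`: same length and greater, `2`: shorter). -/
def St (x : List A) : Set (G × Fin 3) :=
  {p | ∃ y : List A, FT f F x y ∧ p.1 = (ev f x)⁻¹ * ev f y ∧
    ((p.2 = 0 ∧ y.length = x.length ∧ List.Lex (fun a b : A => a < b) y x) ∨
     (p.2 = 1 ∧ y.length = x.length ∧ List.Lex (fun a b : A => a < b) x y) ∨
     (p.2 = 2 ∧ y.length < x.length))}

variable {f F}

lemma FT.diff {x y : List A} (h : FT f F x y) : (ev f x)⁻¹ * ev f y ∈ F := by
  have h1 := h (max x.length y.length)
  rwa [List.take_of_length_le (le_max_left _ _), List.take_of_length_le (le_max_right _ _)] at h1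

lemma St_subset (x : List A) : St f F x ⊆ F ×ˢ Set.univ := by
  rintro ⟨d, o⟩ ⟨y, hy, hd, -⟩
  refine ⟨?_, Set.mem_univ _⟩
  change d ∈ F
  change d = _ at hd
  rw [hd]
  exact hy.diff

/-- from words of length one more to the words -/
lemma FT.init {x y : List A} {a b : A} (hl : y.length = x.length)
    (h : FT f F (x ++ [a]) (y ++ [b])) : FT f F x y := by
  intro t
  rcases le_total t x.length with ht | ht
  · have h1 := h t
    rwa [List.take_append_of_le_length ht, List.take_append_of_le_length (by omega)] at h1
  · have h1 := h x.length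
    rw [List.take_append_of_le_length le_rfl, List.take_append_of_le_length (by omega)] at h1
    rw [List.take_of_length_le ht, List.take_of_length_le (by omega)]
    rwa [List.take_of_length_le le_rfl, List.take_of_length_le (by omega)] at h1

lemma FT.init' {x y : List A} {a : A} (hl : y.length ≤ x.length)
    (h : FT f F (x ++ [a]) y) : FT f F x y := by
  intro t
  rcases le_total t x.length with ht | ht
  · have h1 := h t
    rwa [List.take_append_of_le_length ht] at h1
  · have h1 := h x.length
    rw [List.take_append_of_le_length le_rfl, List.take_of_length_le le_rfl,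
      List.take_of_length_le hl] at h1
    rwa [List.take_of_length_le ht, List.take_of_length_le (by omega)]

lemma FT.snoc {x y : List A} {a b : A} (hl : y.length = x.length) (h : FT f F x y)
    (hd : (ev f (x ++ [a]))⁻¹ * ev f (y ++ [b]) ∈ F) : FT f F (x ++ [a]) (y ++ [b]) := by
  intro t
  rcases le_or_gt t x.length with ht | ht
  · rw [List.take_append_of_le_length ht, List.take_append_of_le_length (by omega)]
    exact h t
  · rw [List.take_of_length_le (by simp; omega), List.take_of_length_le (by simp; omega)]
    exact hd

lemma FT.snoc' {x y : List A} {a : A} (hl : y.length ≤ x.length) (h : FT f F x y)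
    (hd : (ev f (x ++ [a]))⁻¹ * ev f y ∈ F) : FT f F (x ++ [a]) y := by
  intro t
  rcases le_or_gt t x.length with ht | ht
  · rw [List.take_append_of_le_length ht]
    exact h t
  · rw [List.take_of_length_le (by simp; omega), List.take_of_length_le (by omega)]
    exact hd

lemma lex_snoc {x y : List A} {a b : A} (hl : y.length = x.length) :
    List.Lex (fun a b : A => a < b) (y ++ [b]) (x ++ [a]) ↔
      List.Lex (fun a b : A => a < b) y x ∨ (y = x ∧ b < a) := by
  constructor
  · intro h
    induction x generalizing y with
    | nil =>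
      have : y = [] := List.eq_nil_of_length_eq_zero (by simpa using hl)
      subst this
      right
      exact ⟨rfl, by simpa using h⟩
    | cons c x ih =>
      cases y with
      | nil => simp at hl
      | cons d y =>
        have hl' : y.length = x.length := by simpa using hl
        rw [List.cons_append, List.cons_append] at h
        cases h with
        | cons h =>
          rcases ih hl' h with h1 | ⟨h1, h2⟩
          · exact Or.inl (List.Lex.cons h1)
          · right
            exact ⟨by rw [h1], h2⟩
        | rel h => exact Or.inl (List.Lex.rel h)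
  · rintro (h | ⟨rfl, h⟩)
    · exact lex_append _ _ hl h
    · exact List.Lex.append_left _ (List.Lex.rel h) _

lemma St_snoc_subset {x x' : List A} (h : St f F x = St f F x') (a : A) :
    St f F (x ++ [a]) ⊆ St f F (x' ++ [a]) := by
  rintro ⟨d, o⟩ ⟨y, hy, hd, ho⟩
  change d = _ at hd
  change (o = 0 ∧ _) ∨ (o = 1 ∧ _) ∨ (o = 2 ∧ _) at ho
  have hdF : d ∈ F := hd ▸ hy.diff
  -- the key transfer for words `y0` with the same length as `x`, or shorter
  have key : ∀ (y0 : List A) (o0 : Fin 3), FT f F x y0 →
      ((o0 = 0 ∧ y0.length = x.length ∧ List.Lex (fun a b : A => a < b) y0 x) ∨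
       (o0 = 1 ∧ y0.length = x.length ∧ List.Lex (fun a b : A => a < b) x y0) ∨
       (o0 = 2 ∧ y0.length < x.length)) →
      ∃ y0' : List A, FT f F x' y0' ∧ (ev f x)⁻¹ * ev f y0 = (ev f x')⁻¹ * ev f y0' ∧
      ((o0 = 0 ∧ y0'.length = x'.length ∧ List.Lex (fun a b : A => a < b) y0' x') ∨
       (o0 = 1 ∧ y0'.length = x'.length ∧ List.Lex (fun a b : A => a < b) x' y0') ∨
       (o0 = 2 ∧ y0'.length < x'.length)) := by
    intro y0 o0 h1 h2
    have h3 : ((ev f x)⁻¹ * ev f y0, o0) ∈ St f F x := ⟨y0, h1, rfl, h2⟩
    rw [h] at h3
    obtain ⟨y0', h4, h5, h6⟩ := h3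
    exact ⟨y0', h4, h5, h6⟩
  by_cases hlen : y.length = x.length + 1
  · -- `y = y0 ++ [b]`
    obtain ⟨y0, b, rfl⟩ : ∃ y0 b, y = y0 ++ [b] := by
      rcases List.eq_nil_or_concat y with h0 | ⟨y0, b, h0⟩
      · rw [h0] at hlen
        simp at hlen
      · exact ⟨y0, b, by rw [h0, List.concat_eq_append]⟩
    have hl0 : y0.length = x.length := by simpa using hlen
    have hft := hy.init hl0
    have hnew : ∀ y0' : List A, (ev f x)⁻¹ * ev f y0 = (ev f x')⁻¹ * ev f y0' →
        d = (ev f (x' ++ [a]))⁻¹ * ev f (y0' ++ [b]) := by
      intro y0' h1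
      rw [hd]
      simp only [ev_append, ev_cons, ev_nil, mul_one, mul_inv_rev]
      have h2 : (f a)⁻¹ * (ev f x)⁻¹ * (ev f y0 * f b) = (f a)⁻¹ * ((ev f x)⁻¹ * ev f y0) * f b := by
        group
      have h3 : (f a)⁻¹ * (ev f x')⁻¹ * (ev f y0' * f b) =
          (f a)⁻¹ * ((ev f x')⁻¹ * ev f y0') * f b := by
        group
      rw [h2, h3, h1]
    rcases ho with ⟨rfl, -, hlex⟩ | ⟨rfl, -, hlex⟩ | ⟨-, hlt⟩
    · rw [lex_snoc hl0] at hlex
      rcases hlex with hlex | ⟨rfl, hba⟩
      · obtain ⟨y0', h1, h2, h3⟩ := key y0 0 hft (Or.inl ⟨rfl, hl0, hlex⟩)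
        have h3' : y0'.length = x'.length ∧ List.Lex (fun a b : A => a < b) y0' x' := by
          rcases h3 with h3 | h3 | h3
          · exact h3.2
          · exact absurd h3.1 (by decide)
          · exact absurd h3.1 (by decide)
        have hd' := hnew y0' h2
        refine ⟨y0' ++ [b], h1.snoc h3'.1 (hd' ▸ hdF), hd', Or.inl ⟨rfl, by simp [h3'.1], ?_⟩⟩
        exact (lex_snoc h3'.1).2 (Or.inl h3'.2)
      · have hd' := hnew x' (by simp)
        have h1 : FT f F x' x' := fun t => by
          have := hft t
          simpa using this
        refine ⟨x' ++ [b], h1.snoc rfl (hd' ▸ hdF), hd', Or.inl ⟨rfl, by simp, ?_⟩⟩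
        exact (lex_snoc rfl).2 (Or.inr ⟨rfl, hba⟩)
    · rw [lex_snoc hl0.symm] at hlex
      rcases hlex with hlex | ⟨rfl, hba⟩
      · obtain ⟨y0', h1, h2, h3⟩ := key y0 1 hft (Or.inr (Or.inl ⟨rfl, hl0, hlex⟩))
        have h3' : y0'.length = x'.length ∧ List.Lex (fun a b : A => a < b) x' y0' := by
          rcases h3 with h3 | h3 | h3
          · exact absurd h3.1 (by decide)
          · exact h3.2
          · exact absurd h3.1 (by decide)
        have hd' := hnew y0' h2
        refine ⟨y0' ++ [b], h1.snoc h3'.1 (hd' ▸ hdF), hd',
          Or.inr (Or.inl ⟨rfl, by simp [h3'.1], ?_⟩)⟩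
        exact (lex_snoc h3'.1.symm).2 (Or.inl h3'.2)
      · have hd' := hnew x' (by simp)
        have h1 : FT f F x' x' := fun t => by
          have := hft t
          simpa using this
        refine ⟨x' ++ [b], h1.snoc rfl (hd' ▸ hdF), hd', Or.inr (Or.inl ⟨rfl, by simp, ?_⟩)⟩
        exact (lex_snoc rfl).2 (Or.inr ⟨rfl, hba⟩)
    · exfalso
      simp at hlt
      omega
  · -- `y` is not longer than `x`, the type is `2`
    have hle : y.length ≤ x.length ∧ o = 2 := by
      rcases ho with ⟨-, h1, -⟩ | ⟨-, h1, -⟩ | ⟨h0, h1⟩
      · simp at h1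
        omega
      · simp at h1
        omega
      · simp at h1
        exact ⟨by omega, h0⟩
    obtain ⟨hle, rfl⟩ := hle
    have hft := hy.init' hle
    have hnew : ∀ y0' : List A, (ev f x)⁻¹ * ev f y = (ev f x')⁻¹ * ev f y0' →
        d = (ev f (x' ++ [a]))⁻¹ * ev f y0' := by
      intro y0' h1
      rw [hd]
      simp only [ev_append, ev_cons, ev_nil, mul_one, mul_inv_rev]
      rw [mul_assoc, h1, mul_assoc]
    have fin : ∀ y0' : List A, FT f F x' y0' → (ev f x)⁻¹ * ev f y = (ev f x')⁻¹ * ev f y0' →
        y0'.length ≤ x'.length → ((d, (2 : Fin 3)) : G × Fin 3) ∈ St f F (x' ++ [a]) := by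
      intro y0' h1 h2 h3
      have hd' := hnew y0' h2
      refine ⟨y0', h1.snoc' h3 (hd' ▸ hdF), hd', Or.inr (Or.inr ⟨rfl, ?_⟩)⟩
      simp only [List.length_append, List.length_singleton]
      omega
    rcases lt_or_eq_of_le hle with hlt | heq
    · obtain ⟨y0', h1, h2, h3⟩ := key y 2 hft (Or.inr (Or.inr ⟨rfl, hlt⟩))
      refine fin y0' h1 h2 ?_
      rcases h3 with h3 | h3 | h3
      · exact absurd h3.1 (by decide)
      · exact absurd h3.1 (by decide)
      · exact h3.2.le
    · rcases trichotomous_of (List.Lex (fun a b : A => a < b)) y x with hc | hc | hc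
      · obtain ⟨y0', h1, h2, h3⟩ := key y 0 hft (Or.inl ⟨rfl, heq, hc⟩)
        refine fin y0' h1 h2 ?_
        rcases h3 with h3 | h3 | h3
        · exact h3.2.1.le
        · exact absurd h3.1 (by decide)
        · exact absurd h3.1 (by decide)
      · subst hc
        refine fin x' (fun t => ?_) (by simp) le_rfl
        have := hft t
        simpa using this
      · obtain ⟨y0', h1, h2, h3⟩ := key y 1 hft (Or.inr (Or.inl ⟨rfl, heq, hc⟩))
        refine fin y0' h1 h2 ?_
        rcases h3 with h3 | h3 | h3
        · exact absurd h3.1 (by decide)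
        · exact h3.2.1.le
        · exact absurd h3.1 (by decide)

lemma St_snoc {x x' : List A} (h : St f F x = St f F x') (a : A) :
    St f F (x ++ [a]) = St f F (x' ++ [a]) :=
  Set.Subset.antisymm (St_snoc_subset h a) (St_snoc_subset h.symm a)

/-- the state shows that the word is not least -/
def Bad (S : Set (G × Fin 3)) : Prop := (1, 0) ∈ S ∨ (1, 2) ∈ S

lemma not_least_of_bad {x : List A} (h : Bad (St f F x)) : ¬ IsShortlexLeast f x := by
  intro hx
  rcases h with ⟨y, -, hd, ho⟩ | ⟨y, -, hd, ho⟩
  · have h1 : ev f y = ev f x := by
      change 1 = _ at hd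
      exact (inv_mul_eq_one.1 hd.symm).symm
    rcases ho with ⟨-, h2, h3⟩ | ⟨h2, -⟩ | ⟨h2, -⟩
    · exact hx y h1 (List.Shortlex.of_lex h2 h3)
    · change (0 : Fin 3) = 1 at h2
      exact absurd h2 (by decide)
    · change (0 : Fin 3) = 2 at h2
      exact absurd h2 (by decide)
  · have h1 : ev f y = ev f x := by
      change 1 = _ at hd
      exact (inv_mul_eq_one.1 hd.symm).symm
    rcases ho with ⟨h2, -⟩ | ⟨h2, -⟩ | ⟨-, h2⟩
    · change (2 : Fin 3) = 0 at h2
      exact absurd h2 (by decide)
    · change (2 : Fin 3) = 1 at h2
      exact absurd h2 (by decide)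
    · exact hx y h1 (List.Shortlex.of_length_lt h2)

variable [Finite A]

/-- least words are recognised by the states of their beginnings -/
lemma least_iff (hgen : ∀ g : G, ∃ w : List A, ev f w = g) (h1F : (1 : G) ∈ F)
    (hFT : ∀ v w : List A, IsShortlexLeast f v → IsShortlexLeast f w → ∀ a : A,
      ev f v * f a = ev f w → FT f F v w) (x : List A) :
    IsShortlexLeast f x ↔ ∀ u v, x = u ++ v → ¬ Bad (St f F u) := by
  constructor
  · rintro hx u v rfl hb
    exact not_least_of_bad hb hx.left
  · intro h
    induction x using List.reverseRecOn with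
    | nil => exact fun w' _ hlt => List.not_shortlex_nil_right hlt
    | append_singleton x a ih =>
      have hx := ih (fun u v huv => h u (v ++ [a]) (by rw [huv, List.append_assoc]))
      by_contra hnot
      obtain ⟨w, hw, hwe⟩ := exists_least f hgen (ev f (x ++ [a]))
      have hne : w ≠ x ++ [a] := fun he => hnot (he ▸ hw)
      have hlt : List.Shortlex (fun a b : A => a < b) w (x ++ [a]) := by
        rcases trichotomous_of (List.Shortlex (fun a b : A => a < b)) w (x ++ [a]) with h1 | h1 | h1
        · exact h1
        · exact absurd h1 hne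
        · exact absurd h1 (hw _ hwe.symm)
      have hft := hFT x w hx hw a (by rw [hwe]; simp)
      have hd : (ev f (x ++ [a]))⁻¹ * ev f w = 1 := by
        rw [hwe, inv_mul_cancel]
      have hft' : FT f F (x ++ [a]) w := by
        intro t
        rcases le_or_gt t x.length with ht | ht
        · rw [List.take_append_of_le_length ht]
          exact hft t
        · have hwl : w.length ≤ (x ++ [a]).length := by
            rw [List.shortlex_def] at hlt
            omega
          rw [List.take_of_length_le (by simp; omega), List.take_of_length_le (by simp at hwl; omega),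
            hd]
          exact h1F
      refine h (x ++ [a]) [] (by simp) ?_
      rw [List.shortlex_def] at hlt
      rcases hlt with hlt | ⟨hlt1, hlt2⟩
      · right
        exact ⟨w, hft', hd.symm, Or.inr (Or.inr ⟨rfl, hlt⟩)⟩
      · left
        exact ⟨w, hft', hd.symm, Or.inl ⟨rfl, hlt1, hlt2⟩⟩

lemma least_regular (hgen : ∀ g : G, ∃ w : List A, ev f w = g) (hF : F.Finite) (h1F : (1 : G) ∈ F)
    (hFT : ∀ v w : List A, IsShortlexLeast f v → IsShortlexLeast f w → ∀ a : A,
      ev f v * f a = ev f w → FT f F v w) :
    Language.IsRegular ({w | IsShortlexLeast f w} : Set (List A)) := by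
  refine reg_of_state _ (fun x => (St f F x, IsShortlexLeast f x)) ?_ ?_
  · have h1 : (Set.range fun x : List A => (St f F x, IsShortlexLeast f x)) ⊆
        (𝒫 (F ×ˢ (Set.univ : Set (Fin 3)))) ×ˢ (Set.univ : Set Prop) := by
      rintro _ ⟨x, rfl⟩
      exact ⟨St_subset x, Set.mem_univ _⟩
    refine Set.Finite.subset ?_ h1
    exact ((hF.prod Set.finite_univ).finite_subsets).prod Set.finite_univ
  · intro x y hxy z
    change IsShortlexLeast f (x ++ z) → IsShortlexLeast f (y ++ z)
    induction z generalizing x y with
    | nil =>
      simp only [List.append_nil]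
      have h1 := congrArg Prod.snd hxy
      change IsShortlexLeast f x = IsShortlexLeast f y at h1
      rw [h1]
      exact id
    | cons a z ih =>
      intro h
      have e1 : x ++ a :: z = (x ++ [a]) ++ z := by simp
      have e2 : y ++ a :: z = (y ++ [a]) ++ z := by simp
      rw [e1] at h
      rw [e2]
      refine ih (x ++ [a]) (y ++ [a]) ?_ h
      have hs : St f F x = St f F y := congrArg Prod.fst hxy
      have hl : IsShortlexLeast f x = IsShortlexLeast f y := congrArg Prod.snd hxy
      have hs' := St_snoc hs a
      refine Prod.ext hs' ?_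
      change IsShortlexLeast f (x ++ [a]) = IsShortlexLeast f (y ++ [a])
      have aux : ∀ x y : List A, St f F (x ++ [a]) = St f F (y ++ [a]) →
          (IsShortlexLeast f x → IsShortlexLeast f y) →
          IsShortlexLeast f (x ++ [a]) → IsShortlexLeast f (y ++ [a]) := by
        intro x y h1 h2 h3
        have hy := h2 h3.left
        rw [least_iff hgen h1F hFT] at h3 hy ⊢
        intro u v huv hb
        rcases List.eq_nil_or_concat v with hv | ⟨v', c, hv⟩
        · rw [hv, List.append_nil] at huv
          rw [← huv, ← h1] at hb
          exact h3 (x ++ [a]) [] (by simp) hb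
        · rw [List.concat_eq_append] at hv
          rw [hv, ← List.append_assoc] at huv
          have h4 := List.append_inj_left' huv (by simp)
          exact hy u v' h4 hb
      exact propext ⟨aux x y hs' (fun h => hl ▸ h), aux y x hs'.symm (fun h => hl ▸ h)⟩

/-- padded pairs of words of a regular language whose difference is prescribed, provided that they
fellow travel -/
lemma pair_regular {L : Language A} (hL : L.IsRegular) (hF : F.Finite) (c : G)
    (hFT : ∀ v ∈ L, ∀ w ∈ L, ev f v * c = ev f w → FT f F v w) :
    Language.IsRegular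
      ({x | ∃ v ∈ L, ∃ w ∈ L, ev f v * c = ev f w ∧ x = pad v w} :
        Set (List (Option A × Option A))) := by
  let Q := Set.range L.leftQuotient
  have hQ : Q.Finite := hL.finite_range_leftQuotient
  let s : List (Option A × Option A) → Set (Language A × Language A × G × Prop × Prop) := fun x =>
    {p | ∃ v w : List A, x = pad v w ∧ (ev f v)⁻¹ * ev f w ∈ F ∧
      p = (L.leftQuotient v, L.leftQuotient w, (ev f v)⁻¹ * ev f w,
        v.length < x.length, w.length < x.length)}
  refine reg_of_state _ s ?_ ?_
  · have h1 : Set.range s ⊆
        𝒫 (Q ×ˢ (Q ×ˢ (F ×ˢ ((Set.univ : Set Prop) ×ˢ (Set.univ : Set Prop))))) := by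
      rintro _ ⟨x, rfl⟩ p ⟨v, w, -, hd, rfl⟩
      exact ⟨⟨v, rfl⟩, ⟨w, rfl⟩, hd, Set.mem_univ _, Set.mem_univ _⟩
    refine Set.Finite.subset ?_ h1
    exact (hQ.prod (hQ.prod (hF.prod (Set.finite_univ.prod Set.finite_univ)))).finite_subsets
  · intro x y hxy z hz
    obtain ⟨v, hv, w, hw, hvw, hpad⟩ := hz
    have ht : x = pad (v.take x.length) (w.take x.length) := by
      rw [← pad_take, ← hpad, List.take_left']
      rfl
    have hdr : z = pad (v.drop x.length) (w.drop x.length) := by
      rw [← pad_drop, ← hpad, List.drop_left']
      rfl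
    have hft := hFT v hv w hw hvw x.length
    have hmem : (L.leftQuotient (v.take x.length), L.leftQuotient (w.take x.length),
        (ev f (v.take x.length))⁻¹ * ev f (w.take x.length),
        (v.take x.length).length < x.length, (w.take x.length).length < x.length) ∈ s x :=
      ⟨_, _, ht, hft, rfl⟩
    rw [hxy] at hmem
    obtain ⟨v1, w1, hy, hd, he⟩ := hmem
    have he1 : L.leftQuotient (v.take x.length) = L.leftQuotient v1 := congrArg (fun p => p.1) he
    have he2 : L.leftQuotient (w.take x.length) = L.leftQuotient w1 :=
      congrArg (fun p => p.2.1) he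
    have he3 : (ev f (v.take x.length))⁻¹ * ev f (w.take x.length) = (ev f v1)⁻¹ * ev f w1 :=
      congrArg (fun p => p.2.2.1) he
    have he4 : ((v.take x.length).length < x.length) = (v1.length < y.length) :=
      congrArg (fun p => p.2.2.2.1) he
    have he5 : ((w.take x.length).length < x.length) = (w1.length < y.length) :=
      congrArg (fun p => p.2.2.2.2) he
    have hyl : y.length = max v1.length w1.length := by
      rw [hy, length_pad]
    refine ⟨v1 ++ v.drop x.length, ?_, w1 ++ w.drop x.length, ?_, ?_, ?_⟩
    · have h1 : v.drop x.length ∈ L.leftQuotient (v.take x.length) := by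
        rw [Language.mem_leftQuotient, List.take_append_drop]
        exact hv
      rw [he1] at h1
      exact h1
    · have h1 : w.drop x.length ∈ L.leftQuotient (w.take x.length) := by
        rw [Language.mem_leftQuotient, List.take_append_drop]
        exact hw
      rw [he2] at h1
      exact h1
    · have e1 : ev f v = ev f (v.take x.length) * ev f (v.drop x.length) := by
        rw [← ev_append, List.take_append_drop]
      have e2 : ev f w = ev f (w.take x.length) * ev f (w.drop x.length) := by
        rw [← ev_append, List.take_append_drop]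
      rw [e1, e2] at hvw
      rw [ev_append, ev_append]
      have e3 : ev f (v.drop x.length) * c =
          (ev f (v.take x.length))⁻¹ * ev f (w.take x.length) * ev f (w.drop x.length) := by
        rw [mul_assoc, ← hvw]
        group
      rw [he3] at e3
      rw [mul_assoc, e3]
      group
    · rw [pad_append, ← hy, ← hdr]
      · intro hlt
        have h1 : v1.length < y.length := by rw [hyl]; exact lt_max_of_lt_right hlt
        rw [← he4, List.length_take] at h1
        rw [List.drop_eq_nil_iff]
        omega
      · intro hlt
        have h1 : w1.length < y.length := by rw [hyl]; exact lt_max_of_lt_left hlt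
        rw [← he5, List.length_take] at h1
        rw [List.drop_eq_nil_iff]
        omega

/-- **Criterion**: if the shortlex least words of neighbouring elements fellow travel with
differences in a finite set, then the shortlex least words are an automatic structure. -/
theorem automatic_of_FT (hgen : ∀ g : G, ∃ w : List A, ev f w = g) (hF : F.Finite)
    (h1F : (1 : G) ∈ F)
    (hFT : ∀ v w : List A, IsShortlexLeast f v → IsShortlexLeast f w → ∀ a : A,
      ev f v * f a = ev f w → FT f F v w) :
    IsAutomaticStructure f ({w | IsShortlexLeast f w} : Set (List A)) := by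
  have hreg := least_regular hgen hF h1F hFT
  refine ⟨hreg, fun g => ?_, fun a => ?_, ?_⟩
  · obtain ⟨w, hw, hg⟩ := exists_least f hgen g
    exact ⟨w, hw, hg⟩
  · exact pair_regular hreg hF (f a) fun v hv w hw h => hFT v w hv hw a h
  · have h1 := pair_regular (f := f) (F := F) hreg hF 1 (fun v hv w hw h t => by
      have hvw : v = w := least_unique f hv hw (by rw [← h, mul_one])
      rw [hvw, inv_mul_cancel]
      exact h1F)
    simpa only [mul_one] using h1

end automaton

end Pool.Agent.MP_b803e5_al
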