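import Mathlib
import Pool.Agent.Lib.MP_b803e5_al.Reg

/-!
# MP_b803e5_al: groups acting on Helly graphs

`X` is a Helly graph with finite balls, `G` acts on it by automorphisms, transitively on vertices,
with finite stabilisers. Letters: the elements moving the base vertex by at most one, ordered by
decreasing size of the intersection of the ball of radius one with its translate. Shortlex least
words then follow dominating vertices, and fellow travel.
-/

set_option linter.unusedSectionVars false

namespace Pool.Agent.MP_b803e5_al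

section graph

variable {V : Type*} {X : SimpleGraph V}

/-- intermediate vertices -/
lemma exists_between (hX : X.Connected) {u v : V} {m n : ℕ} (h : X.dist u v ≤ m + n) :
    ∃ z, X.dist u z ≤ m ∧ X.dist z v ≤ n := by
  obtain ⟨p, hp⟩ := hX.exists_walk_length_eq_dist u v
  refine ⟨p.getVert m, ?_, ?_⟩
  · refine (SimpleGraph.dist_le (p.take m)).trans ?_
    rw [SimpleGraph.Walk.take_length]
    exact min_le_left _ _
  · refine (SimpleGraph.dist_le (p.drop m)).trans ?_
    rw [SimpleGraph.Walk.drop_length]
    omega

variable {G : Type*} [Group G] [MulAction G V]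

lemma dist_smul_le (hX : X.Connected) (hG : ∀ (g : G) (u v : V), X.Adj u v → X.Adj (g • u) (g • v))
    (g : G) (u v : V) : X.dist (g • u) (g • v) ≤ X.dist u v := by
  obtain ⟨p, hp⟩ := hX.exists_walk_length_eq_dist u v
  let φ : X →g X := ⟨fun x => g • x, fun h => hG g _ _ h⟩
  have h1 := SimpleGraph.dist_le (p.map φ)
  rw [SimpleGraph.Walk.length_map, hp] at h1
  exact h1

lemma dist_smul (hX : X.Connected) (hG : ∀ (g : G) (u v : V), X.Adj u v → X.Adj (g • u) (g • v))
    (g : G) (u v : V) : X.dist (g • u) (g • v) = X.dist u v := by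
  refine le_antisymm (dist_smul_le hX hG g u v) ?_
  have h1 := dist_smul_le hX hG g⁻¹ (g • u) (g • v)
  rwa [inv_smul_smul, inv_smul_smul] at h1

end graph

section action

variable {V : Type*} {X : SimpleGraph V} {G : Type*} [Group G] [MulAction G V]

/-- vertices near the base vertex `x0` and near `v` -/
def Nb (X : SimpleGraph V) (x0 v : V) : Set V := {z | X.dist x0 z ≤ 1 ∧ X.dist z v ≤ 1}

variable {n : ℕ} {f : Fin n → G} {x0 : V}

lemma len_le (hX : X.Connected) (hG : ∀ (g : G) (u v : V), X.Adj u v → X.Adj (g • u) (g • v))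
    (hf : ∀ i, X.dist x0 (f i • x0) ≤ 1) (w : List (Fin n)) :
    X.dist x0 (ev f w • x0) ≤ w.length := by
  induction w with
  | nil => simp
  | cons a w ih =>
    rw [ev_cons, mul_smul, List.length_cons]
    have h1 := hX.dist_triangle (u := x0) (v := f a • x0) (w := f a • ev f w • x0)
    rw [dist_smul hX hG] at h1
    have := hf a
    omega

lemma exists_word (hX : X.Connected) (hG : ∀ (g : G) (u v : V), X.Adj u v → X.Adj (g • u) (g • v))
    (htr : ∀ u v : V, ∃ g : G, g • u = v)
    (hS : ∀ g : G, X.dist x0 (g • x0) ≤ 1 → ∃ i, f i = g) {m : ℕ} (hm : 1 ≤ m) :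
    ∀ g : G, X.dist x0 (g • x0) ≤ m → ∃ w : List (Fin n), w.length = m ∧ ev f w = g := by
  induction m, hm using Nat.le_induction with
  | base =>
    intro g hg
    obtain ⟨i, hi⟩ := hS g hg
    exact ⟨[i], rfl, by simp [hi]⟩
  | succ m hm ih =>
    intro g hg
    obtain ⟨z, hz1, hz2⟩ := exists_between hX (m := 1) (n := m) (by omega : X.dist x0 (g • x0) ≤ 1 + m)
    obtain ⟨h, rfl⟩ := htr x0 z
    obtain ⟨i, hi⟩ := hS h hz1
    have h1 : X.dist x0 ((h⁻¹ * g) • x0) ≤ m := by
      rw [← dist_smul hX hG h, mul_smul, smul_inv_smul]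
      exact hz2
    obtain ⟨w, hw, hwe⟩ := ih _ h1
    exact ⟨i :: w, by simp [hw], by rw [ev_cons, hwe, hi, mul_inv_cancel_left]⟩

/-- **Domination**: the first letter of a shortlex least word leads to a vertex which is near all
vertices near the base vertex whose distance to the target has not grown. -/
lemma dom (hH : IsHelly X) (hG : ∀ (g : G) (u v : V), X.Adj u v → X.Adj (g • u) (g • v))
    (htr : ∀ u v : V, ∃ g : G, g • u = v) (hB : {z | X.dist x0 z ≤ 1}.Finite)
    (hf : ∀ i, X.dist x0 (f i • x0) ≤ 1)
    (hS : ∀ g : G, X.dist x0 (g • x0) ≤ 1 → ∃ i, f i = g)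
    (hN : ∀ i j, i ≤ j → (Nb X x0 (f j • x0)).ncard ≤ (Nb X x0 (f i • x0)).ncard)
    {a : Fin n} {v : List (Fin n)} (hw : IsShortlexLeast f (a :: v)) (z : V)
    (hz1 : X.dist x0 z ≤ 1) (hz2 : X.dist z (ev f (a :: v) • x0) ≤ (a :: v).length) :
    X.dist z (f a • x0) ≤ 1 := by
  classical
  have hX := hH.1
  rcases List.eq_nil_or_concat v with hv | ⟨v0, c, hv⟩
  · subst hv
    simpa using hz2
  · have hr : 1 ≤ v.length := by
      rw [hv, List.concat_eq_append]
      simp
    set r := v.length with hrdef
    set g := ev f (a :: v) with hg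
    have hlen : (a :: v).length = r + 1 := rfl
    let Z : Set V := {z | X.dist x0 z ≤ 1 ∧ X.dist z (g • x0) ≤ r + 1}
    have hZ : Z.Finite := hB.subset fun z hz => hz.1
    have hx0g : X.dist x0 (g • x0) ≤ r + 1 := by
      have := len_le hX hG hf (a :: v)
      rwa [hlen] at this
    -- the Helly property
    let s : Finset (V × ℕ) := insert (x0, 1) (insert (g • x0, r) (hZ.toFinset.image fun z => (z, 1)))
    have hmem : ∀ b ∈ s, b = (x0, 1) ∨ b = (g • x0, r) ∨ ∃ z ∈ Z, b = (z, 1) := by
      intro b hb
      simp only [s, Finset.mem_insert, Finset.mem_image, Set.Finite.mem_toFinset] at hb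
      rcases hb with hb | hb | ⟨z, hz, hb⟩
      · exact Or.inl hb
      · exact Or.inr (Or.inl hb)
      · exact Or.inr (Or.inr ⟨z, hz, hb.symm⟩)
    have hx0 : X.dist x0 x0 ≤ 1 := by simp
    have key1 : ∃ z, X.dist x0 z ≤ 1 ∧ X.dist (g • x0) z ≤ r := by
      obtain ⟨z, h1, h2⟩ := exists_between hX (m := 1) (n := r)
        (by omega : X.dist x0 (g • x0) ≤ 1 + r)
      exact ⟨z, h1, by rwa [SimpleGraph.dist_comm]⟩
    have key2 : ∀ y ∈ Z, ∃ z, X.dist y z ≤ 1 ∧ X.dist (g • x0) z ≤ r := by
      intro y hy
      obtain ⟨z, h1, h2⟩ := exists_between hX (m := 1) (n := r)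
        (by have := hy.2; omega : X.dist y (g • x0) ≤ 1 + r)
      exact ⟨z, h1, by rwa [SimpleGraph.dist_comm]⟩
    have hpair : ∀ b ∈ s, ∀ c ∈ s, ∃ z, X.dist b.1 z ≤ b.2 ∧ X.dist c.1 z ≤ c.2 := by
      intro b hb c hc
      rcases hmem b hb with rfl | rfl | ⟨y, hy, rfl⟩ <;>
        rcases hmem c hc with rfl | rfl | ⟨y', hy', rfl⟩
      · exact ⟨x0, hx0, hx0⟩
      · exact key1
      · exact ⟨x0, hx0, by rw [SimpleGraph.dist_comm]; exact hy'.1⟩
      · obtain ⟨z, h1, h2⟩ := key1
        exact ⟨z, h2, h1⟩
      · exact ⟨g • x0, by simp, by simp⟩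
      · obtain ⟨z, h1, h2⟩ := key2 y' hy'
        exact ⟨z, h2, h1⟩
      · exact ⟨x0, by rw [SimpleGraph.dist_comm]; exact hy.1, hx0⟩
      · exact key2 y hy
      · exact ⟨x0, by rw [SimpleGraph.dist_comm]; exact hy.1,
          by rw [SimpleGraph.dist_comm]; exact hy'.1⟩
    obtain ⟨u, hu⟩ := hH.2 s hpair
    have hu1 : X.dist x0 u ≤ 1 := hu (x0, 1) (by simp [s])
    have hu2 : X.dist (g • x0) u ≤ r := hu (g • x0, r) (by simp [s])
    have hu3 : ∀ z ∈ Z, X.dist z u ≤ 1 := fun z hz =>
      hu (z, 1) (by
        simp only [s, Finset.mem_insert, Finset.mem_image, Set.Finite.mem_toFinset]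
        exact Or.inr (Or.inr ⟨z, hz, rfl⟩))
    obtain ⟨h, rfl⟩ := htr x0 u
    obtain ⟨i, hi⟩ := hS h hu1
    have h1 : X.dist x0 ((h⁻¹ * g) • x0) ≤ r := by
      rw [← dist_smul hX hG h, mul_smul, smul_inv_smul, SimpleGraph.dist_comm]
      exact hu2
    obtain ⟨v', hv', hve⟩ := exists_word hX hG htr hS hr _ h1
    have hword : ev f (i :: v') = g := by
      rw [ev_cons, hve, hi, mul_inv_cancel_left]
    have hai : a ≤ i := by
      by_contra hlt
      rw [not_le] at hlt
      refine hw (i :: v') hword (List.Shortlex.of_lex (by simp [hv', hrdef]) (List.Lex.rel hlt))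
    have hcard := hN a i hai
    have hZi : Z ⊆ Nb X x0 (f i • x0) := fun z hz => ⟨hz.1, by rw [hi]; exact hu3 z hz⟩
    have haZ : Nb X x0 (f a • x0) ⊆ Z := by
      intro z hz
      refine ⟨hz.1, ?_⟩
      have h2 := hX.dist_triangle (u := z) (v := f a • x0) (w := g • x0)
      have h3 : X.dist (f a • x0) (g • x0) ≤ r := by
        rw [hg, ev_cons, mul_smul, dist_smul hX hG]
        exact len_le hX hG hf v
      have := hz.2
      omega
    have hfin : (Nb X x0 (f i • x0)).Finite := hB.subset fun z hz => hz.1
    have heq := Set.eq_of_subset_of_ncard_le (haZ.trans hZi) hcard hfin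
    have hzi : z ∈ Nb X x0 (f i • x0) := hZi ⟨hz1, by rw [hlen] at hz2; exact hz2⟩
    rw [← heq] at hzi
    exact hzi.2

/-- fellow travelling of words of the same length -/
lemma ft_same (hH : IsHelly X) (hG : ∀ (g : G) (u v : V), X.Adj u v → X.Adj (g • u) (g • v))
    (htr : ∀ u v : V, ∃ g : G, g • u = v) (hB : {z | X.dist x0 z ≤ 1}.Finite)
    (hf : ∀ i, X.dist x0 (f i • x0) ≤ 1)
    (hS : ∀ g : G, X.dist x0 (g • x0) ≤ 1 → ∃ i, f i = g)
    (hN : ∀ i j, i ≤ j → (Nb X x0 (f j • x0)).ncard ≤ (Nb X x0 (f i • x0)).ncard)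
    (w : List (Fin n)) : ∀ (w' : List (Fin n)) (p p' : G), IsShortlexLeast f w →
      IsShortlexLeast f w' → w'.length = w.length → X.dist (p • x0) (p' • x0) ≤ 2 →
      X.dist ((p * ev f w) • x0) ((p' * ev f w') • x0) ≤ 1 → ∀ t : ℕ,
      X.dist ((p * ev f (w.take t)) • x0) ((p' * ev f (w'.take t)) • x0) ≤ 2 := by
  have hX := hH.1
  induction w with
  | nil =>
    intro w' p p' hw hw' hl h0 h1 t
    have : w' = [] := List.eq_nil_of_length_eq_zero (by simpa using hl)
    subst this
    simpa using h0
  | cons a v ih =>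
    intro w' p p' hw hw' hl h0 h1 t
    cases w' with
    | nil => simp at hl
    | cons a' v' =>
      cases t with
      | zero => simpa using h0
      | succ t =>
        have hl' : v'.length = v.length := by simpa using hl
        have hv : IsShortlexLeast f v := IsShortlexLeast.right f (u := [a]) hw
        have hv' : IsShortlexLeast f v' := IsShortlexLeast.right f (u := [a']) hw'
        set r := (a :: v).length with hr
        set Q := (p * ev f (a :: v)) • x0 with hQ
        set Q' := (p' * ev f (a' :: v')) • x0 with hQ'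
        have dQ : X.dist (p • x0) Q ≤ r := by
          rw [hQ, mul_smul, dist_smul hX hG]
          exact len_le hX hG hf _
        have dQ' : X.dist (p' • x0) Q' ≤ r := by
          rw [hQ', mul_smul, dist_smul hX hG, ← hl]
          exact len_le hX hG hf _
        have dPQ' : X.dist (p • x0) Q' ≤ 1 + r := by
          have := hX.dist_triangle (u := p • x0) (v := Q) (w := Q')
          omega
        have dP'Q : X.dist (p' • x0) Q ≤ 1 + r := by
          have := hX.dist_triangle (u := p' • x0) (v := Q') (w := Q)
          rw [SimpleGraph.dist_comm (u := Q') (v := Q)] at this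
          omega
        -- a common point of the four balls
        have hz : ∃ z, X.dist (p • x0) z ≤ 1 ∧ X.dist (p' • x0) z ≤ 1 ∧ X.dist Q z ≤ r ∧
            X.dist Q' z ≤ r := by
          classical
          have hr1 : 1 ≤ r := by simp [hr]
          have bt : ∀ (u v : V) (m n : ℕ), X.dist u v ≤ m + n →
              ∃ z, X.dist u z ≤ m ∧ X.dist v z ≤ n := by
            intro u v m n h
            obtain ⟨z, h1, h2⟩ := exists_between hX h
            exact ⟨z, h1, by rwa [SimpleGraph.dist_comm]⟩
          have hQP := SimpleGraph.dist_comm (G := X) (u := p • x0) (v := Q)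
          have hQ'P := SimpleGraph.dist_comm (G := X) (u := p • x0) (v := Q')
          have hQP' := SimpleGraph.dist_comm (G := X) (u := p' • x0) (v := Q)
          have hQ'P' := SimpleGraph.dist_comm (G := X) (u := p' • x0) (v := Q')
          have hPP' := SimpleGraph.dist_comm (G := X) (u := p • x0) (v := p' • x0)
          have hQQ' := SimpleGraph.dist_comm (G := X) (u := Q) (v := Q')
          have e1 := SimpleGraph.dist_self (G := X) (v := p • x0)
          have e2 := SimpleGraph.dist_self (G := X) (v := p' • x0)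
          have e3 := SimpleGraph.dist_self (G := X) (v := Q)
          have e4 := SimpleGraph.dist_self (G := X) (v := Q')
          obtain ⟨z, hz⟩ := hH.2 ({(p • x0, 1), (p' • x0, 1), (Q, r), (Q', r)} : Finset (V × ℕ))
            (by
              intro b hb c hc
              simp only [Finset.mem_insert, Finset.mem_singleton] at hb hc
              rcases hb with rfl | rfl | rfl | rfl <;> rcases hc with rfl | rfl | rfl | rfl <;>
                exact bt _ _ _ _ (by dsimp only; omega))
          refine ⟨z, hz (p • x0, 1) (by simp), hz (p' • x0, 1) (by simp), hz (Q, r) (by simp),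
            hz (Q', r) (by simp)⟩
        obtain ⟨z, hz1, hz2, hz3, hz4⟩ := hz
        have d1 : X.dist z ((p * f a) • x0) ≤ 1 := by
          have h2 := dom hH hG htr hB hf hS hN hw (p⁻¹ • z)
            (by rw [← dist_smul hX hG p, smul_inv_smul]; exact hz1)
            (by rw [← dist_smul hX hG p, smul_inv_smul, SimpleGraph.dist_comm, ← mul_smul]
                exact hz3)
          rwa [← dist_smul hX hG p, smul_inv_smul, ← mul_smul] at h2
        have d2 : X.dist z ((p' * f a') • x0) ≤ 1 := by
          have h2 := dom hH hG htr hB hf hS hN hw' (p'⁻¹ • z)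
            (by rw [← dist_smul hX hG p', smul_inv_smul]; exact hz2)
            (by rw [← dist_smul hX hG p', smul_inv_smul, SimpleGraph.dist_comm, ← mul_smul, hl]
                exact hz4)
          rwa [← dist_smul hX hG p', smul_inv_smul, ← mul_smul] at h2
        have d3 : X.dist ((p * f a) • x0) ((p' * f a') • x0) ≤ 2 := by
          have := hX.dist_triangle (u := (p * f a) • x0) (v := z) (w := (p' * f a') • x0)
          rw [SimpleGraph.dist_comm (u := (p * f a) • x0) (v := z)] at this
          omega
        have h5 := ih v' (p * f a) (p' * f a') hv hv' hl' d3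
          (by rw [mul_assoc, mul_assoc, ← ev_cons, ← ev_cons]; exact h1) t
        rw [List.take_succ_cons, List.take_succ_cons, ev_cons, ev_cons, ← mul_assoc, ← mul_assoc]
        exact h5

/-- shortlex least words of neighbouring elements fellow travel -/
lemma ft_all (hH : IsHelly X) (hG : ∀ (g : G) (u v : V), X.Adj u v → X.Adj (g • u) (g • v))
    (htr : ∀ u v : V, ∃ g : G, g • u = v) (hB : {z | X.dist x0 z ≤ 1}.Finite)
    (hf : ∀ i, X.dist x0 (f i • x0) ≤ 1)
    (hS : ∀ g : G, X.dist x0 (g • x0) ≤ 1 → ∃ i, f i = g)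
    (hN : ∀ i j, i ≤ j → (Nb X x0 (f j • x0)).ncard ≤ (Nb X x0 (f i • x0)).ncard)
    (v w : List (Fin n)) (hv : IsShortlexLeast f v) (hw : IsShortlexLeast f w) (a : Fin n)
    (h : ev f v * f a = ev f w) : FT f {g : G | X.dist x0 (g • x0) ≤ 3} v w := by
  have hX := hH.1
  -- the endpoints are adjacent
  have hend : X.dist (ev f v • x0) (ev f w • x0) ≤ 1 := by
    rw [← h, mul_smul, dist_smul hX hG]
    exact hf a
  -- the lengths differ by at most one
  have hl1 : w.length ≤ v.length + 1 := by
    have := hw.length_le f (w := v ++ [a]) (by simp [h])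
    simpa using this
  have hl2 : v.length ≤ w.length + 1 := by
    have h1 : X.dist x0 ((f a)⁻¹ • x0) ≤ 1 := by
      rw [← dist_smul hX hG (f a), smul_inv_smul, SimpleGraph.dist_comm]
      exact hf a
    obtain ⟨b, hb⟩ := hS _ h1
    have := hv.length_le f (w := w ++ [b]) (by simp [hb, ← h])
    simpa using this
  intro t
  change X.dist x0 (((ev f (v.take t))⁻¹ * ev f (w.take t)) • x0) ≤ 3
  rw [← dist_smul hX hG (ev f (v.take t)), mul_smul, smul_inv_smul]
  rcases lt_trichotomy v.length w.length with hl | hl | hl
  · -- `w` is longer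
    cases w with
    | nil => simp at hl
    | cons b w =>
      have hlen : w.length = v.length := by
        simp at hl hl1
        omega
      have h1 := ft_same hH hG htr hB hf hS hN v w 1 (f b) hv
        (IsShortlexLeast.right f (u := [b]) hw) hlen
        (by rw [one_smul]; exact (hf b).trans (by norm_num))
        (by rw [one_mul, ← ev_cons]; exact hend) t
      rw [one_mul, ← ev_cons, ← List.take_succ_cons] at h1
      have h2 : X.dist (ev f ((b :: w).take (t + 1)) • x0) (ev f ((b :: w).take t) • x0) ≤ 1 := by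
        rcases lt_or_ge t (b :: w).length with ht | ht
        · rw [List.take_add_one, List.getElem?_eq_getElem ht, Option.toList_some, ev_append,
            ev_cons, ev_nil, mul_one, mul_smul, SimpleGraph.dist_comm, dist_smul hX hG]
          exact hf _
        · rw [List.take_of_length_le ht, List.take_of_length_le (by omega)]
          simp
      have := hX.dist_triangle (u := ev f (v.take t) • x0)
        (v := ev f ((b :: w).take (t + 1)) • x0) (w := ev f ((b :: w).take t) • x0)
      omega
  · have h1 := ft_same hH hG htr hB hf hS hN v w 1 1 hv hw hl.symm (by simp)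
      (by rw [one_mul, one_mul]; exact hend) t
    rw [one_mul, one_mul] at h1
    omega
  · -- `v` is longer
    cases v with
    | nil => simp at hl
    | cons b v =>
      have hlen : w.length = v.length := by
        simp at hl hl2
        omega
      have h1 := ft_same hH hG htr hB hf hS hN v w (f b) 1
        (IsShortlexLeast.right f (u := [b]) hv) hw hlen
        (by rw [one_smul, SimpleGraph.dist_comm]; exact (hf b).trans (by norm_num))
        (by rw [one_mul, ← ev_cons]; exact hend) t
      rw [one_mul, ← ev_cons, ← List.take_succ_cons] at h1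
      have h2 : X.dist (ev f ((b :: v).take (t + 1)) • x0) (ev f ((b :: v).take t) • x0) ≤ 1 := by
        rcases lt_or_ge t (b :: v).length with ht | ht
        · rw [List.take_add_one, List.getElem?_eq_getElem ht, Option.toList_some, ev_append,
            ev_cons, ev_nil, mul_one, mul_smul, SimpleGraph.dist_comm, dist_smul hX hG]
          exact hf _
        · rw [List.take_of_length_le ht, List.take_of_length_le (by omega)]
          simp
      have h3 := hX.dist_triangle (u := ev f ((b :: v).take t) • x0)
        (v := ev f ((b :: v).take (t + 1)) • x0) (w := ev f (w.take t) • x0)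
      have h4 := SimpleGraph.dist_comm (G := X) (u := ev f ((b :: v).take t) • x0)
        (v := ev f ((b :: v).take (t + 1)) • x0)
      omega

end action

/-- a finite set, enumerated with decreasing values of a function -/
lemma exists_enum {G : Type*} {S : Set G} (hS : S.Finite) (N : G → ℕ) :
    ∃ (n : ℕ) (f : Fin n → G), (∀ i, f i ∈ S) ∧ (∀ g ∈ S, ∃ i, f i = g) ∧
      ∀ i j, i ≤ j → N (f j) ≤ N (f i) := by
  classical
  let r : G → G → Bool := fun a b => decide (N b ≤ N a)
  let l := hS.toFinset.toList.mergeSort r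
  have hl : l.Pairwise fun a b => N b ≤ N a := by
    have := List.pairwise_mergeSort (le := r) (fun a b c hab hbc => by
        simp only [r, decide_eq_true_eq] at hab hbc ⊢
        omega) (fun a b => by
        simp only [r, Bool.or_eq_true, decide_eq_true_eq]
        omega) hS.toFinset.toList
    exact this.imp fun h => by simpa [r] using h
  have hm : ∀ g, g ∈ l ↔ g ∈ S := by
    intro g
    simp [l, List.mem_mergeSort]
  refine ⟨l.length, fun i => l[i], fun i => (hm _).1 (List.getElem_mem _), fun g hg => ?_, ?_⟩
  · obtain ⟨i, hi, hgi⟩ := List.mem_iff_getElem.1 ((hm g).2 hg)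
    exact ⟨⟨i, hi⟩, hgi⟩
  · intro i j hij
    rcases eq_or_lt_of_le hij with h | h
    · rw [h]
    · exact List.pairwise_iff_getElem.1 hl i j i.2 j.2 h

/-- **Main theorem**: a group acting by automorphisms, transitively on vertices and with finite
stabilisers, on a locally finite Helly graph is shortlex automatic. -/
theorem shortlexAutomatic_of_helly {V : Type*} {X : SimpleGraph V} {G : Type*} [Group G]
    [MulAction G V] (hH : IsHelly X) (hfin : ∀ v : V, (X.neighborSet v).Finite)
    (hG : ∀ (g : G) (u v : V), X.Adj u v → X.Adj (g • u) (g • v))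
    (htr : ∀ u v : V, ∃ g : G, g • u = v)
    (hst : ∀ v : V, {g : G | g • v = v}.Finite) : ShortlexAutomatic G := by
  have hX := hH.1
  obtain ⟨x0⟩ : Nonempty V := hX.nonempty
  have hB : ∀ v, {z | X.dist v z ≤ 1}.Finite := by
    intro v
    refine ((hfin v).union (Set.finite_singleton v)).subset ?_
    intro z hz
    change X.dist v z ≤ 1 at hz
    rcases Nat.le_one_iff_eq_zero_or_eq_one.1 hz with h | h
    · right
      exact ((hX.dist_eq_zero_iff).1 h).symm
    · left
      exact SimpleGraph.dist_eq_one_iff_adj.1 h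
  have hBn : ∀ m : ℕ, {z | X.dist x0 z ≤ m}.Finite := by
    intro m
    induction m with
    | zero =>
      refine (Set.finite_singleton x0).subset fun z hz => ?_
      change X.dist x0 z ≤ 0 at hz
      exact ((hX.dist_eq_zero_iff).1 (Nat.le_zero.1 hz)).symm
    | succ m ih =>
      refine (ih.biUnion fun v _ => hB v).subset fun z hz => ?_
      obtain ⟨y, hy1, hy2⟩ := exists_between hX (m := m) (n := 1) hz
      exact Set.mem_biUnion hy1 hy2
  have hto : ∀ v : V, {g : G | g • x0 = v}.Finite := by
    intro v
    obtain ⟨h, hh⟩ := htr x0 v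
    refine ((hst x0).image fun g => h * g).subset fun g hg => ?_
    change g • x0 = v at hg
    exact ⟨h⁻¹ * g, by
      change (h⁻¹ * g) • x0 = x0
      rw [mul_smul, hg, ← hh, inv_smul_smul], mul_inv_cancel_left h g⟩
  have hFn : ∀ m : ℕ, {g : G | X.dist x0 (g • x0) ≤ m}.Finite := by
    intro m
    refine ((hBn m).biUnion fun v _ => hto v).subset fun g hg => ?_
    exact Set.mem_biUnion (show g • x0 ∈ {z | X.dist x0 z ≤ m} from hg) rfl
  obtain ⟨n, f, hf, hS, hN⟩ := exists_enum (hFn 1) fun g => (Nb X x0 (g • x0)).ncard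
  have hgen : ∀ g : G, ∃ w : List (Fin n), ev f w = g := by
    intro g
    obtain ⟨w, -, hw⟩ := exists_word (f := f) (x0 := x0) hX hG htr hS
      (le_max_left 1 (X.dist x0 (g • x0))) g (le_max_right _ _)
    exact ⟨w, hw⟩
  exact ⟨n, f, hgen, automatic_of_FT hgen (hFn 3) (by simp)
    fun v w hv hw a h => ft_all hH hG htr (hB x0) hf hS hN v w hv hw a h⟩

end Pool.Agent.MP_b803e5_al
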